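import Mathlib
import Pool.Agent.H2.SoficMain

namespace Pool.Agent.Results.MP_6d1796_al.NonSofic

open Pool.Agent.H2.Sofic

/-- There is a monoid `M` whose `J`-class of the identity is the group of units, whose group of
units is sofic, and which is not sofic. -/
theorem result : ∃ (M : Type) (_ : Monoid M),
    JOne M = {x : M | IsUnit x} ∧ IsSofic Mˣ ∧ ¬ IsSofic M :=
  ⟨Mon GG (GG ⧸ KK), inferInstance, jOne_mon GG (GG ⧸ KK), isSofic_units, not_isSofic_main⟩

end Pool.Agent.Results.MP_6d1796_al.NonSofic
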